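import Mathlib

/-!
# Elements of an algebraically closed field fixed by all automorphisms
-/

namespace Pool.Agent.ZDS

open MvPolynomial

/-- Translation of the variables. -/
noncomputable def trans {ι : Type*} (c : ι → ℚ) : MvPolynomial ι ℚ ≃ₐ[ℚ] MvPolynomial ι ℚ :=
  AlgEquiv.ofAlgHom (aeval fun i => X i + C (c i)) (aeval fun i => X i - C (c i))
    (by ext i; simp) (by ext i; simp)

lemma eval_trans {ι : Type*} (c t : ι → ℚ) (P : MvPolynomial ι ℚ) :
    eval t (trans c P) = eval (fun i => t i + c i) P := by
  have h : (aeval t : MvPolynomial ι ℚ →ₐ[ℚ] ℚ).comp (trans c : MvPolynomial ι ℚ →ₐ[ℚ] _) =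
      aeval (fun i => t i + c i) := by
    ext i
    simp [trans]
  have h1 := congrArg (fun f => f P) h
  simpa [MvPolynomial.coe_aeval_eq_eval] using h1

/-- An element of an algebraically closed field of characteristic zero which is fixed by all
automorphisms is rational. -/
theorem rat_of_fixed {K : Type*} [Field K] [CharZero K] [IsAlgClosed K] (a : K)
    (h : ∀ σ : K ≃+* K, σ a = a) : ∃ q : ℚ, algebraMap ℚ K q = a := by
  classical
  obtain ⟨s, hv⟩ := exists_isTranscendenceBasis ℚ K
  set v : s → K := fun x => (x : K) with hvdef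
  set A := Algebra.adjoin ℚ (Set.range v) with hA
  have hcl : IsAlgClosure A K := IsAlgClosed.isAlgClosure_of_transcendence_basis v hv
  let e : MvPolynomial s ℚ ≃ₐ[ℚ] A := hv.1.aevalEquiv
  have he : ∀ P, algebraMap A K (e P) = aeval v P := fun P => hv.1.algebraMap_aevalEquiv P
  have hinj : Function.Injective (aeval v : MvPolynomial s ℚ →ₐ[ℚ] K) := hv.1
  -- the element is a quotient of polynomials
  have hfrac : ∃ P Q : MvPolynomial s ℚ, Q ≠ 0 ∧ a * aeval v Q = aeval v P := by
    let _ : Algebra (FractionRing A) K := FractionRing.liftAlgebra A K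
    have : IsScalarTower A (FractionRing A) K := FractionRing.isScalarTower_liftAlgebra A K
    have halg : Algebra.IsAlgebraic A K := hcl.isAlgebraic
    have halg2 : Algebra.IsAlgebraic (FractionRing A) K :=
      (IsFractionRing.comap_isAlgebraic_iff (A := A) (K := FractionRing A) (C := K)).1 halg
    have hcl2 : IsAlgClosure (FractionRing A) K := ⟨inferInstance, halg2⟩
    have hchar : CharZero (FractionRing A) :=
      charZero_of_injective_algebraMap (IsFractionRing.injective A (FractionRing A))
    have hg : IsGalois (FractionRing A) K := IsAlgClosure.isGalois _ _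
    obtain ⟨y, hy⟩ := (InfiniteGalois.mem_range_algebraMap_iff_fixed (k := FractionRing A)
      (K := K) a).2 (fun τ => h τ.toRingEquiv)
    obtain ⟨P, Q, hQ, hPQ⟩ := IsFractionRing.div_surjective (A := A) y
    refine ⟨e.symm P, e.symm Q, ?_, ?_⟩
    · intro h0
      have : Q = 0 := by
        have := congrArg e h0
        rwa [AlgEquiv.apply_symm_apply, map_zero] at this
      exact nonZeroDivisors.ne_zero hQ this
    · rw [← he, ← he, AlgEquiv.apply_symm_apply, AlgEquiv.apply_symm_apply]
      rw [← hy, ← hPQ, map_div₀, ← IsScalarTower.algebraMap_apply,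
        ← IsScalarTower.algebraMap_apply]
      have hQ0 : algebraMap A K Q ≠ 0 := by
        intro h0
        have h1 : Q = 0 := by
          apply Subtype.ext
          exact h0
        exact nonZeroDivisors.ne_zero hQ h1
      field_simp
  obtain ⟨P, Q, hQ, hPQ⟩ := hfrac
  -- translations
  have htr : ∀ c : s → ℚ, P * trans c Q = Q * trans c P := by
    intro c
    let ψ : A ≃+* A := ((e.symm.trans (trans c)).trans e).toRingEquiv
    let σ : K ≃+* K := IsAlgClosure.equivOfEquiv K K ψ
    have hσ : ∀ R : MvPolynomial s ℚ, σ (aeval v R) = aeval v (trans c R) := by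
      intro R
      rw [← he, IsAlgClosure.equivOfEquiv_algebraMap, ← he]
      simp [ψ]
    have h1 := congrArg σ hPQ
    rw [map_mul, h σ, hσ, hσ] at h1
    apply hinj
    rw [map_mul, map_mul, ← hPQ, ← h1]
    ring
  obtain ⟨t, ht⟩ : ∃ t : s → ℚ, eval t Q ≠ 0 := by
    by_contra hcon
    push Not at hcon
    apply hQ
    apply MvPolynomial.funext
    intro x
    rw [hcon x, map_zero]
  have hconst : P * C (eval t Q) = C (eval t P) * Q := by
    apply MvPolynomial.funext
    intro x
    have h2 := congrArg (eval t) (htr (fun i => x i - t i))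
    rw [map_mul, map_mul, eval_trans, eval_trans] at h2
    have h3 : (fun i => t i + (x i - t i)) = x := by
      funext i
      ring
    rw [h3] at h2
    rw [map_mul, map_mul, eval_C, eval_C]
    linarith
  refine ⟨eval t P / eval t Q, ?_⟩
  have h4 := congrArg (aeval v) hconst
  rw [map_mul, map_mul, aeval_C, aeval_C, ← hPQ] at h4
  have hQ0 : (aeval v Q : K) ≠ 0 := by
    intro h0
    apply hQ
    apply hinj
    rw [h0, map_zero]
  have ht0 : algebraMap ℚ K (eval t Q) ≠ 0 := by
    rw [Ne, map_eq_zero]
    exact ht
  rw [map_div₀, div_eq_iff ht0]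
  have h5 : (a * algebraMap ℚ K (eval t Q) - algebraMap ℚ K (eval t P)) * aeval v Q = 0 := by
    linear_combination h4
  rcases mul_eq_zero.1 h5 with h6 | h6
  · linear_combination -h6
  · exact absurd h6 hQ0

end Pool.Agent.ZDS
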