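import Pool.Agent.KK.Ext
import Pool.Agent.ZDS.Fixed

/-!
# The radical of a group algebra in characteristic zero: descent to the rational numbers
-/

namespace Pool.Agent.ZDS

open MonoidAlgebra Pool.Agent.KK

variable {K : Type*} [Field K] {G : Type*} [Group G]

/-- The action of automorphisms on coefficients. -/
noncomputable def gal (s : K ≃+* K) : MonoidAlgebra K G →+* MonoidAlgebra K G :=
  MonoidAlgebra.mapRingHom G (s : K →+* K)

lemma gal_coeff (s : K ≃+* K) (a : MonoidAlgebra K G) (g : G) :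
    (gal s a).coeff g = s (a.coeff g) := by
  rw [gal, MonoidAlgebra.coeff_mapRingHom]
  rfl

lemma gal_gal_symm (s : K ≃+* K) (a : MonoidAlgebra K G) : gal s (gal s.symm a) = a := by
  ext g
  rw [gal_coeff, gal_coeff, RingEquiv.apply_symm_apply]

lemma gal_mem (s : K ≃+* K) {a : MonoidAlgebra K G}
    (ha : a ∈ Ideal.jacobson (⊥ : Ideal (MonoidAlgebra K G))) :
    gal s a ∈ Ideal.jacobson (⊥ : Ideal (MonoidAlgebra K G)) := by
  apply mem_of_left_inv
  intro b
  obtain ⟨u, hu⟩ := left_inv_of_mem ha (gal s.symm b)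
  refine ⟨gal s u, ?_⟩
  have h := congrArg (gal s) hu
  rw [map_mul, map_sub, map_one, map_mul, gal_gal_symm] at h
  exact h

variable [CharZero K]

lemma gal_ext (s : K ≃+* K) (x : MonoidAlgebra ℚ G) :
    gal s (ext ℚ K G x) = ext ℚ K G x := by
  ext g
  rw [gal_coeff, ext_coeff]
  exact map_ratCast s _

variable [IsAlgClosed K]

/-- Elements fixed by all automorphisms have rational coefficients. -/
lemma exists_of_fixed {a : MonoidAlgebra K G} (ha : ∀ s, gal s a = a) :
    ∃ x : MonoidAlgebra ℚ G, ext ℚ K G x = a := by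
  classical
  have h1 : ∀ g, ∃ q : ℚ, algebraMap ℚ K q = a.coeff g := by
    intro g
    apply rat_of_fixed
    intro s
    have := congrArg (fun z => z.coeff g) (ha s)
    simp only [gal_coeff] at this
    exact this
  choose q hq using h1
  refine ⟨∑ g ∈ a.coeff.support, single g (q g), ?_⟩
  rw [map_sum]
  conv_rhs => rw [← MonoidAlgebra.sum_coeff_single a, Finsupp.sum]
  refine Finset.sum_congr rfl fun g _ => ?_
  rw [ext_single, hq]

/-- The radical over an algebraically closed field contains elements with rational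
coefficients. -/
theorem exists_rat (hJ : Ideal.jacobson (⊥ : Ideal (MonoidAlgebra K G)) ≠ ⊥) :
    ∃ x : MonoidAlgebra ℚ G, x ≠ 0 ∧
      ext ℚ K G x ∈ Ideal.jacobson (⊥ : Ideal (MonoidAlgebra K G)) := by
  classical
  set J := Ideal.jacobson (⊥ : Ideal (MonoidAlgebra K G)) with hJdef
  have hex : ∃ n, ∃ a ∈ J, a ≠ 0 ∧ a.coeff.support.card = n := by
    obtain ⟨a, ha, ha0⟩ := Submodule.exists_mem_ne_zero_of_ne_bot hJ
    exact ⟨_, a, ha, ha0, rfl⟩
  obtain ⟨a, ha, ha0, hcard⟩ := Nat.find_spec hex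
  have hmin : ∀ b ∈ J, b.coeff.support.card < a.coeff.support.card → b = 0 := by
    intro b hb hlt
    by_contra hb0
    rw [hcard] at hlt
    exact Nat.find_min hex hlt ⟨b, hb, hb0, rfl⟩
  obtain ⟨g0, hg0⟩ : ∃ g, a.coeff g ≠ 0 := by
    by_contra h
    push Not at h
    apply ha0
    ext g
    simpa using h g
  set c := (a.coeff g0)⁻¹ with hc
  have hc0 : c ≠ 0 := inv_ne_zero hg0
  set b : MonoidAlgebra K G := single 1 c * a with hb
  have hbJ : b ∈ J := J.mul_mem_left _ ha
  have hbc : ∀ g, b.coeff g = c * a.coeff g := by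
    intro g
    rw [hb]
    simp
  have hb1 : b.coeff g0 = 1 := by
    rw [hbc, hc, inv_mul_cancel₀ hg0]
  have hsupp : ∀ g, b.coeff g = 0 ↔ a.coeff g = 0 := by
    intro g
    rw [hbc]
    simp [hc0]
  have hfix : ∀ s, gal s b = b := by
    intro s
    have h1 : gal s b - b ∈ J := J.sub_mem (gal_mem s hbJ) hbJ
    have h2 : (gal s b - b).coeff.support ⊆ a.coeff.support.erase g0 := by
      intro g hg
      rw [Finsupp.mem_support_iff] at hg
      rw [Finset.mem_erase, Finsupp.mem_support_iff]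
      constructor
      · rintro rfl
        apply hg
        simp [gal_coeff, hb1]
      · intro h0
        apply hg
        have h3 := (hsupp g).2 h0
        simp [gal_coeff, h3]
    have h3 : (gal s b - b).coeff.support.card < a.coeff.support.card := by
      refine lt_of_le_of_lt (Finset.card_le_card h2) ?_
      exact Finset.card_erase_lt_of_mem (Finsupp.mem_support_iff.2 hg0)
    exact sub_eq_zero.1 (hmin _ h1 h3)
  obtain ⟨x, hx⟩ := exists_of_fixed hfix
  refine ⟨x, ?_, by rw [hx]; exact hbJ⟩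
  rintro rfl
  rw [map_zero] at hx
  rw [← hx] at hb1
  simp at hb1

/-- The radical contracts into the radical. -/
theorem mem_rat {x : MonoidAlgebra ℚ G}
    (hx : ext ℚ K G x ∈ Ideal.jacobson (⊥ : Ideal (MonoidAlgebra K G))) :
    x ∈ Ideal.jacobson (⊥ : Ideal (MonoidAlgebra ℚ G)) := by
  apply mem_of_left_inv
  intro b
  have h1 : ext ℚ K G (b * x) ∈ Ideal.jacobson (⊥ : Ideal (MonoidAlgebra K G)) := by
    rw [map_mul]
    exact Ideal.mul_mem_left _ _ hx
  obtain ⟨u, hu⟩ := isUnit_one_sub h1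
  have h2 : ∀ s, gal s (↑u⁻¹ : MonoidAlgebra K G) = ↑u⁻¹ := by
    intro s
    have h3 : gal s (↑u⁻¹ : MonoidAlgebra K G) * (u : MonoidAlgebra K G) = 1 := by
      have h4 := congrArg (gal s) (Units.inv_mul u)
      rw [map_mul, map_one] at h4
      rw [hu, map_sub, map_one, gal_ext] at h4
      rw [hu]
      exact h4
    calc gal s (↑u⁻¹ : MonoidAlgebra K G) = gal s (↑u⁻¹ : MonoidAlgebra K G) * (u * ↑u⁻¹) := by
          rw [Units.mul_inv, mul_one]
      _ = ↑u⁻¹ := by rw [← mul_assoc, h3, one_mul]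
  obtain ⟨v, hv⟩ := exists_of_fixed h2
  refine ⟨v, ?_⟩
  apply ext_injective (F := ℚ) (E := K)
  rw [map_mul, map_sub, map_one, hv, ← hu, Units.inv_mul]

/-- From a field of characteristic zero to the rational numbers. -/
theorem jacobson_rat {F : Type*} [Field F] [CharZero F]
    (hJ : Ideal.jacobson (⊥ : Ideal (MonoidAlgebra F G)) ≠ ⊥) :
    ∃ x : MonoidAlgebra ℚ G, x ≠ 0 ∧
      x ∈ Ideal.jacobson (⊥ : Ideal (MonoidAlgebra ℚ G)) := by
  have hJ2 : Ideal.jacobson (⊥ : Ideal (MonoidAlgebra (AlgebraicClosure F) G)) ≠ ⊥ := by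
    obtain ⟨a, ha, ha0⟩ := Submodule.exists_mem_ne_zero_of_ne_bot hJ
    intro h
    have h1 := ext_mem (E := AlgebraicClosure F) ha
    rw [h, Submodule.mem_bot] at h1
    apply ha0
    apply ext_injective (F := F) (E := AlgebraicClosure F)
    rw [h1, map_zero]
  have : CharZero (AlgebraicClosure F) :=
    charZero_of_injective_algebraMap (algebraMap F (AlgebraicClosure F)).injective
  obtain ⟨x, hx0, hx⟩ := exists_rat hJ2
  exact ⟨x, hx0, mem_rat hx⟩

end Pool.Agent.ZDS
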