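import Mathlib
import Pool.Agent.Hhelper64.GA.Extreme

namespace Pool.Agent.ZDS.ExtremelyProximalOld

/-- Let `G` act faithfully by homeomorphisms on an infinite Hausdorff space `X` such that for all
nonempty open sets `U`, `V` some element of `G` maps the complement of `U` into `V`.
Then for every field `F` of characteristic zero the Jacobson radical of `F[G]` is zero. -/
theorem result {F : Type*} [Field F] [CharZero F] {G : Type*} [Group G]
    {X : Type*} [TopologicalSpace X] [T2Space X] [Infinite X] [MulAction G X]
    [ContinuousConstSMul G X] [FaithfulSMul G X]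
    (h : ∀ U V : Set X, IsOpen U → U.Nonempty → IsOpen V → V.Nonempty →
      ∃ g : G, ∀ x, x ∉ U → g • x ∈ V) :
    Ideal.jacobson (⊥ : Ideal (MonoidAlgebra F G)) = ⊥ :=
  Pool.Agent.Hhelper64.GA.extreme h

end Pool.Agent.ZDS.ExtremelyProximalOld
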