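import Pool.Agent.ZDS.Main

/-!
# Zero divisors modulo primes and semisimplicity: the local form
-/

namespace Pool.Agent.ZDS

open MonoidAlgebra Pool.Agent.KK

variable {G : Type*} [Group G]

/-- The inclusion of the group algebra of a subgroup. -/
noncomputable def inc (k : Type*) [CommRing k] (H : Subgroup G) :
    MonoidAlgebra k H →+* MonoidAlgebra k G := MonoidAlgebra.mapDomainRingHom k H.subtype

lemma inc_single {k : Type*} [CommRing k] (H : Subgroup G) (h : H) (c : k) :
    inc k H (single h c) = single (h : G) c := by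
  simp [inc]

/-- The projection onto the group algebra of a subgroup. -/
noncomputable def proj (k : Type*) [CommRing k] (H : Subgroup G) :
    MonoidAlgebra k G →+ MonoidAlgebra k H :=
  MonoidAlgebra.comapDomainAddMonoidHom (fun h : H => (h : G)) Subtype.val_injective

lemma proj_single_mem {k : Type*} [CommRing k] (H : Subgroup G) (h : H) (c : k) :
    proj k H (single (h : G) c) = single h c := by
  rw [proj, comapDomainAddMonoidHom_apply]
  exact comapDomain_single_map (fun h : H => (h : G)) Subtype.val_injective h c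

lemma proj_single_notMem {k : Type*} [CommRing k] (H : Subgroup G) {g : G} (hg : g ∉ H) (c : k) :
    proj k H (single g c) = 0 := by
  rw [proj, comapDomainAddMonoidHom_apply]
  apply comapDomain_single_of_not_mem_range
  rintro ⟨h, rfl⟩
  exact hg h.2

lemma proj_mul {k : Type*} [CommRing k] (H : Subgroup G) (u : MonoidAlgebra k G)
    (v : MonoidAlgebra k H) : proj k H (u * inc k H v) = proj k H u * v := by
  induction u using MonoidAlgebra.induction_linear with
  | zero => rw [zero_mul, map_zero, zero_mul]
  | add a b ha hb => rw [add_mul, map_add, map_add, ha, hb, add_mul]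
  | single g c =>
    induction v using MonoidAlgebra.induction_linear with
    | zero => rw [map_zero, mul_zero, map_zero, mul_zero]
    | add a b ha hb => rw [map_add, mul_add, map_add, ha, hb, mul_add]
    | single h d =>
      rw [inc_single, single_mul_single]
      by_cases hg : g ∈ H
      · have h1 : g = ((⟨g, hg⟩ : H) : G) := rfl
        have h2 : g * (h : G) = ((⟨g, hg⟩ * h : H) : G) := rfl
        rw [h2, proj_single_mem]
        conv_rhs => rw [h1, proj_single_mem, single_mul_single]
      · have h2 : g * (h : G) ∉ H := fun h3 => hg ((H.mul_mem_cancel_right h.2).1 h3)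
        rw [proj_single_notMem H h2, proj_single_notMem H hg, zero_mul]

lemma inc_injective {k : Type*} [CommRing k] (H : Subgroup G) :
    Function.Injective (inc k H) := by
  intro a b hab
  have h1 := proj_mul H 1 a
  have h2 := proj_mul H 1 b
  have h3 : proj k H 1 = 1 := by
    have : (1 : MonoidAlgebra k G) = single ((1 : H) : G) 1 := rfl
    rw [this, proj_single_mem]
    rfl
  rw [h3, one_mul, one_mul] at h1 h2
  rw [← h1, ← h2, hab]

/-- The radical contracts into the radical of the group algebra of a subgroup. -/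
lemma mem_sub {k : Type*} [CommRing k] (H : Subgroup G) {x : MonoidAlgebra k H}
    (hx : inc k H x ∈ Ideal.jacobson (⊥ : Ideal (MonoidAlgebra k G))) :
    x ∈ Ideal.jacobson (⊥ : Ideal (MonoidAlgebra k H)) := by
  apply mem_of_left_inv
  intro b
  obtain ⟨u, hu⟩ := left_inv_of_mem hx (inc k H b)
  refine ⟨proj k H u, ?_⟩
  have h1 : (1 : MonoidAlgebra k G) - inc k H b * inc k H x = inc k H (1 - b * x) := by
    rw [map_sub, map_mul, map_one]
  have h3 : proj k H 1 = 1 := by
    have : (1 : MonoidAlgebra k G) = single ((1 : H) : G) 1 := rfl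
    rw [this, proj_single_mem]
    rfl
  rw [h1] at hu
  rw [← proj_mul, hu, h3]

lemma exists_inc {k : Type*} [CommRing k] (H : Subgroup G) {x : MonoidAlgebra k G}
    (hx : (x.coeff.support : Set G) ⊆ H) : ∃ y : MonoidAlgebra k H, inc k H y = x := by
  classical
  refine ⟨∑ g ∈ x.coeff.support.attach, single ⟨g.1, hx g.2⟩ (x.coeff g.1), ?_⟩
  rw [map_sum]
  conv_rhs => rw [← MonoidAlgebra.sum_coeff_single x, Finsupp.sum, ← Finset.sum_attach]
  exact Finset.sum_congr rfl fun g _ => inc_single _ _ _

/-- **Main theorem.** -/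
theorem semisimple {G : Type*} [Group G]
    (h : ∀ S : Finset G, ∃ H : Subgroup G, (S : Set G) ⊆ H ∧ ∃ p : ℕ, p.Prime ∧
      ∀ I : Ideal (MonoidAlgebra (ZMod p) H), I.IsTwoSided → I ≠ ⊥ →
        ∃ x ∈ I, ∀ y, x * y = 0 → y * x = 0 → y = 0)
    {F : Type*} [Field F] [CharZero F] :
    Ideal.jacobson (⊥ : Ideal (MonoidAlgebra F G)) = ⊥ := by
  by_contra hJ
  obtain ⟨x, hx0, hx⟩ := jacobson_rat hJ
  obtain ⟨H, hS, p, hp, hI⟩ := h x.coeff.support
  obtain ⟨y, rfl⟩ := exists_inc H hS
  have h1 := mem_sub H hx
  rw [jacobson_eq_bot hp hI, Submodule.mem_bot] at h1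
  apply hx0
  rw [h1, map_zero]

end Pool.Agent.ZDS
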