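import Pool.Agent.ZDS.Descent

/-!
# Zero divisors modulo one prime and semisimplicity in characteristic zero
-/

namespace Pool.Agent.ZDS

open MonoidAlgebra Pool.Agent.KK

variable {G : Type*} [Group G]

/-- From integral to rational coefficients. -/
noncomputable def toQ (G : Type*) [Group G] : MonoidAlgebra ℤ G →+* MonoidAlgebra ℚ G :=
  MonoidAlgebra.mapRingHom G (Int.castRingHom ℚ)

/-- From integral coefficients to coefficients modulo `p`. -/
noncomputable def toP (p : ℕ) (G : Type*) [Group G] :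
    MonoidAlgebra ℤ G →+* MonoidAlgebra (ZMod p) G :=
  MonoidAlgebra.mapRingHom G (Int.castRingHom (ZMod p))

lemma toQ_coeff (a : MonoidAlgebra ℤ G) (g : G) : (toQ G a).coeff g = (a.coeff g : ℚ) := by
  rw [toQ, MonoidAlgebra.coeff_mapRingHom]
  rfl

lemma toP_coeff (p : ℕ) (a : MonoidAlgebra ℤ G) (g : G) :
    (toP p G a).coeff g = (a.coeff g : ZMod p) := by
  rw [toP, MonoidAlgebra.coeff_mapRingHom]
  rfl

lemma toQ_injective : Function.Injective (toQ G) := by
  intro a b h
  ext g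
  have := congrArg (fun x => MonoidAlgebra.coeff x g) h
  simp only [toQ_coeff] at this
  exact_mod_cast this

lemma toP_surjective (p : ℕ) : Function.Surjective (toP p G) := by
  classical
  intro a
  refine ⟨∑ g ∈ a.coeff.support, single g (a.coeff g).cast, ?_⟩
  rw [map_sum]
  conv_rhs => rw [← MonoidAlgebra.sum_coeff_single a, Finsupp.sum]
  refine Finset.sum_congr rfl fun g _ => ?_
  ext h
  rw [toP_coeff]
  simp only [coeff_single, Finsupp.single_apply]
  split_ifs
  · exact ZMod.intCast_zmod_cast _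
  · simp

/-- Division by an integer that divides all coefficients. -/
lemma exists_div {n : ℤ} {a : MonoidAlgebra ℤ G} (h : ∀ g, n ∣ a.coeff g) :
    ∃ b : MonoidAlgebra ℤ G, a = n • b := by
  classical
  choose q hq using h
  refine ⟨∑ g ∈ a.coeff.support, single g (q g), ?_⟩
  conv_lhs => rw [← MonoidAlgebra.sum_coeff_single a, Finsupp.sum]
  rw [Finset.smul_sum]
  refine Finset.sum_congr rfl fun g _ => ?_
  rw [MonoidAlgebra.smul_single, smul_eq_mul, ← hq g]

lemma exists_div_p {p : ℕ} {a : MonoidAlgebra ℤ G} (h : toP p G a = 0) :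
    ∃ b : MonoidAlgebra ℤ G, a = (p : ℤ) • b := by
  apply exists_div
  intro g
  have := congrArg (fun x => MonoidAlgebra.coeff x g) h
  simp only [toP_coeff, coeff_zero, Finsupp.coe_zero, Pi.zero_apply] at this
  exact (ZMod.intCast_zmod_eq_zero_iff_dvd _ _).1 this

/-- Common denominators. -/
lemma exists_den (v : MonoidAlgebra ℚ G) :
    ∃ N : ℕ, 0 < N ∧ ∃ c : MonoidAlgebra ℤ G, toQ G c = (N : ℚ) • v := by
  classical
  refine ⟨∏ g ∈ v.coeff.support, (v.coeff g).den, Finset.prod_pos fun g _ => Rat.den_pos _,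
    ∑ g ∈ v.coeff.support, single g ((v.coeff g).num *
      ∏ h ∈ v.coeff.support.erase g, ((v.coeff h).den : ℤ)), ?_⟩
  set D : ℕ := ∏ g ∈ v.coeff.support, (v.coeff g).den with hD
  rw [map_sum]
  conv_rhs => rw [← MonoidAlgebra.sum_coeff_single v, Finsupp.sum]
  rw [Finset.smul_sum]
  refine Finset.sum_congr rfl fun g hg => ?_
  rw [MonoidAlgebra.smul_single]
  ext h
  rw [toQ_coeff]
  simp only [coeff_single, Finsupp.single_apply]
  split_ifs
  · rw [hD, ← Finset.mul_prod_erase _ _ hg]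
    push_cast
    rw [smul_eq_mul]
    conv_rhs => rw [mul_comm, ← mul_assoc, Rat.mul_den_eq_num]
  · simp

/-- The augmentation. -/
noncomputable def aug (k G : Type*) [CommRing k] [Group G] : MonoidAlgebra k G →+* k :=
  (MonoidAlgebra.lift k k G (1 : G →* k) : MonoidAlgebra k G →ₐ[k] k)

lemma aug_single {k : Type*} [CommRing k] (g : G) (c : k) : aug k G (single g c) = c := by
  simp [aug]

lemma aug_toQ (a : MonoidAlgebra ℤ G) : aug ℚ G (toQ G a) = (aug ℤ G a : ℚ) := by
  have h : ((aug ℚ G).comp (toQ G)) = ((Int.castRingHom ℚ).comp (aug ℤ G)) := by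
    ext
    · simp
    · simp [aug, toQ]
  exact congrArg (fun f => f a) h

lemma aug_jacobson {y : MonoidAlgebra ℚ G}
    (hy : y ∈ Ideal.jacobson (⊥ : Ideal (MonoidAlgebra ℚ G))) : aug ℚ G y = 0 := by
  by_contra h0
  obtain ⟨u, hu⟩ := left_inv_of_mem hy (single 1 (aug ℚ G y)⁻¹)
  have h1 := congrArg (aug ℚ G) hu
  rw [map_mul, map_sub, map_one, map_mul, aug_single, inv_mul_cancel₀ h0, sub_self,
    mul_zero] at h1
  exact zero_ne_one h1

/-- The reduction modulo `p` of the integral elements of an ideal. -/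
noncomputable def red (p : ℕ) (J : Ideal (MonoidAlgebra ℚ G)) :
    Ideal (MonoidAlgebra (ZMod p) G) where
  carrier := {z | ∃ c : MonoidAlgebra ℤ G, toQ G c ∈ J ∧ toP p G c = z}
  add_mem' := by
    rintro _ _ ⟨a, ha, rfl⟩ ⟨b, hb, rfl⟩
    exact ⟨a + b, by rw [map_add]; exact J.add_mem ha hb, map_add _ _ _⟩
  zero_mem' := ⟨0, by rw [map_zero]; exact J.zero_mem, map_zero _⟩
  smul_mem' := by
    rintro r _ ⟨a, ha, rfl⟩
    obtain ⟨s, rfl⟩ := toP_surjective p r
    exact ⟨s * a, by rw [map_mul]; exact J.mul_mem_left _ ha, by rw [map_mul, smul_eq_mul]⟩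

lemma mem_red {p : ℕ} {J : Ideal (MonoidAlgebra ℚ G)} {z : MonoidAlgebra (ZMod p) G} :
    z ∈ red p J ↔ ∃ c : MonoidAlgebra ℤ G, toQ G c ∈ J ∧ toP p G c = z := Iff.rfl

lemma red_isTwoSided (p : ℕ) (J : Ideal (MonoidAlgebra ℚ G)) [J.IsTwoSided] :
    (red p J).IsTwoSided := by
  refine ⟨fun {a} b ha => ?_⟩
  obtain ⟨c, hc, rfl⟩ := ha
  obtain ⟨s, rfl⟩ := toP_surjective p b
  exact ⟨c * s, by rw [map_mul]; exact J.mul_mem_right _ hc, map_mul _ _ _⟩

lemma red_ne_bot {p : ℕ} (hp : p.Prime) {J : Ideal (MonoidAlgebra ℚ G)} (hJ : J ≠ ⊥) :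
    red p J ≠ ⊥ := by
  intro h
  obtain ⟨x, hx, hx0⟩ := Submodule.exists_mem_ne_zero_of_ne_bot hJ
  obtain ⟨N, hN, c, hc⟩ := exists_den x
  have hcJ : toQ G c ∈ J := by
    rw [hc]
    exact Submodule.smul_of_tower_mem J _ hx
  have hdvd : ∀ n : ℕ, ∀ a : MonoidAlgebra ℤ G, toQ G a ∈ J → ∀ g, (p : ℤ) ^ n ∣ a.coeff g := by
    intro n
    induction n with
    | zero => intro a _ g; simp
    | succ n ih =>
      intro a ha g
      have h1 : toP p G a = 0 := by
        have : toP p G a ∈ red p J := ⟨a, ha, rfl⟩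
        rw [h, Submodule.mem_bot] at this
        exact this
      obtain ⟨b, rfl⟩ := exists_div_p h1
      have hb : toQ G b ∈ J := by
        have h2 : toQ G b = ((p : ℚ)⁻¹) • toQ G ((p : ℤ) • b) := by
          ext g
          have hp0 : (p : ℚ) ≠ 0 := by exact_mod_cast hp.ne_zero
          rw [toQ_coeff]
          simp only [coeff_smul, Finsupp.smul_apply, toQ_coeff, smul_eq_mul]
          push_cast
          field_simp
        rw [h2]
        exact Submodule.smul_of_tower_mem J _ ha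
      have := ih b hb g
      rw [coeff_smul, Finsupp.smul_apply, smul_eq_mul, pow_succ, mul_comm]
      exact mul_dvd_mul_left _ this
  have hc0 : c = 0 := by
    ext g
    simp only [coeff_zero, Finsupp.coe_zero, Pi.zero_apply]
    apply Int.eq_zero_of_abs_lt_dvd (hdvd (c.coeff g).natAbs c hcJ g)
    have h3 : (c.coeff g).natAbs < p ^ (c.coeff g).natAbs := Nat.lt_pow_self hp.one_lt
    have h4 : ((c.coeff g).natAbs : ℤ) < ((p ^ (c.coeff g).natAbs : ℕ) : ℤ) := by exact_mod_cast h3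
    rw [Int.natCast_natAbs] at h4
    exact_mod_cast h4
  rw [hc0, map_zero] at hc
  apply hx0
  have hN0 : (N : ℚ) ≠ 0 := by exact_mod_cast hN.ne'
  have h5 : (N : ℚ) • x = 0 := hc.symm
  rcases smul_eq_zero.1 h5 with h6 | h6
  · exact absurd h6 hN0
  · exact h6

lemma cancel_p {p M : ℕ} (hp : p ≠ 0) {a : MonoidAlgebra ℤ G}
    (h : (p : ℤ) • a = ((p * M : ℕ) : MonoidAlgebra ℤ G)) : a = M := by
  ext g
  have h6 := congrArg (fun z => MonoidAlgebra.coeff z g) h
  have h7 : ((p * M : ℕ) : MonoidAlgebra ℤ G) = (p : ℤ) • (M : MonoidAlgebra ℤ G) := by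
    push_cast
    rw [← nsmul_eq_mul]
    simp
  simp only [h7, coeff_smul, Finsupp.smul_apply, smul_eq_mul] at h6
  have hpZ : (p : ℤ) ≠ 0 := by exact_mod_cast hp
  exact mul_left_cancel₀ hpZ h6

/-- The radical over `ℚ`. -/
theorem jacobson_eq_bot {p : ℕ} (hp : p.Prime)
    (h : ∀ I : Ideal (MonoidAlgebra (ZMod p) G), I.IsTwoSided → I ≠ ⊥ →
      ∃ x ∈ I, ∀ y, x * y = 0 → y * x = 0 → y = 0) :
    Ideal.jacobson (⊥ : Ideal (MonoidAlgebra ℚ G)) = ⊥ := by
  classical
  by_contra hJ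
  set J := Ideal.jacobson (⊥ : Ideal (MonoidAlgebra ℚ G)) with hJdef
  have hJ2 : J.IsTwoSided := by
    rw [hJdef, Ideal.jacobson_bot]
    infer_instance
  obtain ⟨_, ⟨x, hx, rfl⟩, hreg⟩ := h (red p J) (red_isTwoSided p J) (red_ne_bot hp hJ)
  have hp0 : (p : ℚ) ≠ 0 := by exact_mod_cast hp.ne_zero
  -- the unit `p - x`
  have hex : ∃ N : ℕ, 0 < N ∧ ∃ c : MonoidAlgebra ℤ G, ((p : MonoidAlgebra ℤ G) - x) * c = N ∧
      c * ((p : MonoidAlgebra ℤ G) - x) = N := by
    have h1 : ((p : ℚ)⁻¹) • toQ G x ∈ J := Submodule.smul_of_tower_mem J _ hx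
    obtain ⟨u, hu⟩ := isUnit_one_sub h1
    obtain ⟨N, hN, c, hc⟩ := exists_den (((p : ℚ)⁻¹) • (↑u⁻¹ : MonoidAlgebra ℚ G))
    have h2 : (p : MonoidAlgebra ℚ G) - toQ G x = (p : ℚ) • (u : MonoidAlgebra ℚ G) := by
      rw [hu, smul_sub, smul_smul, mul_inv_cancel₀ hp0, one_smul]
      congr 1
      rw [← Algebra.algebraMap_eq_smul_one, map_natCast]
    refine ⟨N, hN, c, ?_, ?_⟩
    · apply toQ_injective
      rw [map_mul, map_sub, hc, map_natCast, map_natCast]
      rw [h2, smul_smul, smul_mul_smul_comm, Units.mul_inv, ← Algebra.algebraMap_eq_smul_one]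
      have h3 : (p : ℚ) * ((N : ℚ) * (p : ℚ)⁻¹) = N := by field_simp
      rw [h3, map_natCast]
    · apply toQ_injective
      rw [map_mul, map_sub, hc, map_natCast, map_natCast]
      rw [h2, smul_smul, smul_mul_smul_comm, Units.inv_mul, ← Algebra.algebraMap_eq_smul_one]
      have h3 : ((N : ℚ) * (p : ℚ)⁻¹) * (p : ℚ) = N := by field_simp
      rw [h3, map_natCast]
  obtain ⟨hN, c, hc, hc'⟩ := Nat.find_spec hex
  set N := Nat.find hex with hNdef
  by_cases hpN : p ∣ N
  · obtain ⟨M, hM⟩ := hpN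
    have h2 : (p : MonoidAlgebra (ZMod p) G) = 0 := by
      rw [← map_natCast (algebraMap (ZMod p) (MonoidAlgebra (ZMod p) G)), ZMod.natCast_self,
        map_zero]
    have h1 := congrArg (toP p G) hc
    rw [map_mul, map_sub, map_natCast, map_natCast] at h1
    rw [h2, zero_sub, hM, Nat.cast_mul, h2, zero_mul, neg_mul, neg_eq_zero] at h1
    have h1' := congrArg (toP p G) hc'
    rw [map_mul, map_sub, map_natCast, map_natCast] at h1'
    rw [h2, zero_sub, hM, Nat.cast_mul, h2, zero_mul, mul_neg, neg_eq_zero] at h1'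
    have h3 := hreg _ h1 h1'
    obtain ⟨b, rfl⟩ := exists_div_p h3
    have hM0 : 0 < M := by
      rcases Nat.eq_zero_or_pos M with h4 | h4
      · rw [h4, mul_zero] at hM
        omega
      · exact h4
    have h5 : ((p : MonoidAlgebra ℤ G) - x) * b = M := by
      rw [hM, mul_smul_comm] at hc
      exact cancel_p hp.ne_zero hc
    have h5' : b * ((p : MonoidAlgebra ℤ G) - x) = M := by
      rw [hM, smul_mul_assoc] at hc'
      exact cancel_p hp.ne_zero hc'
    have h8 := Nat.find_min' hex ⟨hM0, b, h5, h5'⟩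
    have h9 : M < p * M := by
      have := hp.one_lt
      nlinarith
    rw [← hNdef, hM] at h8
    omega
  · have h1 := congrArg (aug ℤ G) hc
    have h2 : aug ℤ G x = 0 := by
      have h3 := aug_jacobson hx
      rw [aug_toQ] at h3
      exact_mod_cast h3
    rw [map_mul, map_sub, map_natCast, map_natCast, h2, sub_zero] at h1
    apply hpN
    have h3 : (p : ℤ) ∣ (N : ℤ) := ⟨_, h1.symm⟩
    exact_mod_cast h3

end Pool.Agent.ZDS
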